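import Mathlib
import Pool.Prelude.Def_F_c31e40fa
import Pool.Agent.Y736.RN.L
import Pool.Agent.Y736.RN.M
import Pool.Agent.H637R4.PO.Fin

/-!
# Fast decay of the areas of the sublevel sets of Green's function forces Green's function of the
Multibrot set to be large (helper151)
-/

set_option autoImplicit false

open Filter Topology Set Metric MeasureTheory Complex N62a1eb23

namespace Pool.Agent.X151.IR

open Pool.Agent.H713R2 Pool.Agent.H713R2.AR Pool.Agent.H637R4.PO Pool.Agent.Y736.RN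

variable {d : ℕ} {ψ : ℂ → ℂ}

theorem Cd_pos (hd : 2 ≤ d) : 0 < Cd d := by
  unfold Cd
  have hpi := Real.pi_pos
  have h1 : (0 : ℝ) < d := by exact_mod_cast (by omega : 0 < d)
  positivity

theorem tendsto_scale {A α : ℝ} (hA : 0 < A) (hα : 0 < α) :
    Tendsto (fun s : ℝ => A * s ^ α) (𝓝[>] 0) (𝓝[>] 0) := by
  rw [tendsto_nhdsWithin_iff]
  refine ⟨?_, ?_⟩
  · have h1 : Tendsto (fun s : ℝ => s ^ α) (𝓝 0) (𝓝 (0 ^ α)) :=
      (Real.continuousAt_rpow_const 0 α (Or.inr hα.le)).tendsto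
    rw [Real.zero_rpow hα.ne'] at h1
    have h2 := h1.const_mul A
    rw [mul_zero] at h2
    exact h2.mono_left nhdsWithin_le_nhds
  · filter_upwards [self_mem_nhdsWithin] with s hs
    have hs' : (0 : ℝ) < s := hs
    show 0 < A * s ^ α
    have := Real.rpow_pos_of_pos hs' α
    positivity

/-- Areas of sublevel sets below `s ^ α` on a sequence: Green's function of the Multibrot set is of
size `r ^ (1 / α)` on a sequence of scales. -/
theorem big_of_area (hd : 2 ≤ d) (hψ : IsExteriorMap (multibrotSet d) ψ) {c : ℂ}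
    (hc : c ∈ multibrotSet d) {α : ℝ} (hα : 0 < α)
    (h : ∃ᶠ s : ℝ in 𝓝[>] 0, (volume {z : ℂ | green d c z ≤ s}).toReal ≤ s ^ α) :
    Big ψ (1 / α) c := by
  have hC := Cd_pos hd
  have hdR : (2 : ℝ) ≤ d := by exact_mod_cast hd
  have hE : Ext (multibrotSet d) ψ := ⟨hψ.diff, hψ.inj, hψ.image, hψ.infinity⟩
  obtain ⟨A, hA⟩ : ∃ A, A = 2 * Cd d := ⟨_, rfl⟩
  have hA0 : 0 < A := by rw [hA]; positivity
  refine ⟨(A ^ (1 / α))⁻¹, by positivity, ?_⟩
  apply (tendsto_scale hA0 hα).frequently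
  have h1 : ∀ᶠ s : ℝ in 𝓝[>] 0, 0 < s := self_mem_nhdsWithin
  have h2 : ∀ᶠ s : ℝ in 𝓝[>] 0, s < 1 / d :=
    nhdsWithin_le_nhds (gt_mem_nhds (by positivity))
  refine (h.and_eventually (h1.and h2)).mono ?_
  rintro s ⟨hs, hs0, hs1⟩
  have hsα : 0 < s ^ α := Real.rpow_pos_of_pos hs0 _
  have hds : d * s ≤ 1 := by
    rw [lt_div_iff₀ (by linarith)] at hs1
    linarith
  have hnot : ¬ Bnd ψ c (A * s ^ α) (d * s) := by
    intro hB
    have h3 := f_AREA d hd ψ hE c hc (A * s ^ α) (d * s) (by positivity) (by positivity) hds hB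
    have h4 : (d : ℝ) * s / d = s := by field_simp
    rw [h4] at h3
    have h5 : Ar d c s ≤ s ^ α := hs
    have h6 : Cd d * Ar d c s ≤ Cd d * s ^ α := by gcongr
    rw [hA] at h3
    nlinarith [mul_pos hC hsα]
  unfold Bnd at hnot
  push Not at hnot
  obtain ⟨w, hw1, hw2, hw3⟩ := hnot
  refine ⟨w, hw1, ?_, ?_⟩
  · rw [mem_ball, dist_eq_norm] at hw2
    exact hw2.le
  · rw [Real.mul_rpow hA0.le hsα.le, ← Real.rpow_mul hs0.le, mul_one_div_cancel hα.ne',
      Real.rpow_one, inv_mul_cancel_left₀ (by positivity)]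
    have h3 := Real.one_sub_inv_le_log_of_pos (lt_trans one_pos hw1)
    refine le_trans ?_ h3
    have h4 : 1 + d * s ≤ ‖w‖ := by linarith
    have h5 : (‖w‖)⁻¹ ≤ (1 + d * s)⁻¹ := by
      apply inv_anti₀ (by positivity) h4
    have h6 : s ≤ 1 - (1 + d * s)⁻¹ := by
      have h7 : (1 + (d : ℝ) * s)⁻¹ * (1 + d * s) = 1 := inv_mul_cancel₀ (by positivity)
      have h8 : 0 < (1 + (d : ℝ) * s)⁻¹ := by positivity
      have h9 : 1 ≤ (1 + (d : ℝ) * s)⁻¹ * 2 := by nlinarith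
      have h10 : 1 ≤ (1 + (d : ℝ) * s)⁻¹ * d :=
        h9.trans (mul_le_mul_of_nonneg_left hdR h8.le)
      have h11 : s * 1 ≤ s * ((1 + (d : ℝ) * s)⁻¹ * d) := mul_le_mul_of_nonneg_left h10 hs0.le
      linarith
    linarith

end Pool.Agent.X151.IR
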