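import Mathlib
import Pool.Agent.X151.MD.Lim

/-!
# The Dirichlet integral of the velocity outside a level set of the escape rate, at parameters near
which the escape rate is small (helper151)
-/

set_option autoImplicit false

open Complex Topology Filter Metric MeasureTheory Set Polynomial N62a1eb23

namespace Pool.Agent.X151.IR

open Pool.Agent.H713R2 Pool.Agent.H712R2 Pool.Agent.H713R2.AR Pool.Agent.X151.MH
open Pool.Agent.W746.LD (orb S hasDerivAt_orb orb_succ orb_zero P_eq_orb)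
open Pool.Agent.X151.MU Pool.Agent.X151.MA Pool.Agent.X151.MD

variable {n : ℕ}

theorem deriv_motion' (hn : 2 ≤ n) {c : ℂ} (hcM : c ∈ multibrotSet n) {r : ℝ} (hr : 0 < r)
    {j : ℕ} {b : ℂ} (hb : 2 < ‖orb n c b j‖)
    {β : ℂ → ℂ} (h1 : DifferentiableOn ℂ β (ball c r)) (h2 : β c = b)
    (h3 : ∀ t ∈ ball c r, orb n t (β t) j = orb n c b j) :
    HasDerivAt β (1 - S n c b (j + 1)) c := by
  have h4 : HasDerivAt β (deriv β c) c :=
    (h1.differentiableAt (isOpen_ball.mem_nhds (mem_ball_self hr))).hasDerivAt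
  have hP : ∀ i ≤ j, Pool.Agent.W746.LD.P n c b i ≠ 0 := fun i hi =>
    Pool.Agent.W746.LD.P_ne_zero hn fun m hm => orb_ne_of_big hn hcM hb m (by omega)
  have h5 := hasDerivAt_moving h4 h2 j hP
  have h6 : (fun t => orb n t (β t) j) =ᶠ[𝓝 c] fun _ => orb n c b j := by
    filter_upwards [isOpen_ball.mem_nhds (mem_ball_self hr)] with t ht using h3 t ht
  have h7 := (h5.congr_of_eventuallyEq h6.symm).unique (hasDerivAt_const c (orb n c b j))
  have h8 := (mul_eq_zero.mp h7).resolve_left (hP j le_rfl)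
  have h9 : deriv β c = 1 - S n c b (j + 1) := by linear_combination h8
  rw [h9] at h4
  exact h4

/-- The Dirichlet integral at level `j`, with finite critical orbits bounded by `M`. -/
theorem level_dirM (hn : 2 ≤ n) {c : ℂ} (hcM : c ∈ multibrotSet n) {r : ℝ} (hr : 0 < r)
    {M : ℝ} (hM1 : 1 ≤ M) (j : ℕ) (hBd : ∀ t ∈ ball c r, BdJ n M j t) :
    ENNReal.ofReal (r ^ 2) * ∫⁻ z in (EM n (3 * M) c j)ᶜ,
      ENNReal.ofReal (‖deriv (fun z => 1 - S n c z (j + 1)) z‖ ^ 2) ≤
      volume (EM n (3 * M) c j) := by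
  obtain ⟨G, hG⟩ := exists_seq hn
  have hM0 : 0 < M := by linarith
  have hMM : M < 3 * M := by linarith
  have hpi := Real.pi_pos
  have h0 : (0 : ℂ) ∈ ball (0 : ℂ) 1 := mem_ball_self one_pos
  have hrC : (r : ℂ) ≠ 0 := by exact_mod_cast hr.ne'
  have hc2 : ‖c‖ ≤ 2 := norm_le_two_of_sub hn hcM
  set γ : ℂ → ℂ := fun t => c + r * t with hγdef
  have hγ0 : γ 0 = c := by simp [hγdef]
  have hγ : Differentiable ℂ γ := by rw [hγdef]; fun_prop
  have hγm : ∀ t ∈ ball (0 : ℂ) 1, γ t ∈ ball c r := fun t ht => scaled_ball hr ht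
  have hB : ∀ t ∈ ball (0 : ℂ) 1, BdJ n M j (γ t) := fun t ht => hBd _ (hγm t ht)
  have hcB : BdJ n M j c := by have := hB 0 h0; rwa [hγ0] at this
  set R : ℝ := radM n M j with hR
  set ρ : ℝ := radM n (3 * M) j with hρdef
  have hρ : 0 < ρ := radM_pos n (by linarith) j
  have hR0 : 0 < R := radM_pos n hM0 j
  have hρR : ρ < R := radM_lt hn hM0 hMM j
  set g : ℂ → ℂ → ℂ := fun t x => G j (γ t, x) with hg
  have hext : ∀ t ∈ ball (0 : ℂ) 1, IsExt R (g t) := fun t ht => isExt_seqM hn hM0 hG j (hB t ht)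
  have hhol : ∀ a b, DifferentiableOn ℂ (fun t => pc (g t) a b) (ball 0 1) := fun a b =>
    pc_holoM hn hM0 hG hγ.differentiableOn j hB a b
  set w : ℕ → ℂ := fun _ => 1 with hw
  have hQc : ∀ t ∈ ball (0 : ℂ) 1, Qc (g t) w 1 = X := by
    intro t ht
    have h1 : pc (g t) 1 1 = 0 := pc_lowM hn hM0 hG j (hB t ht) 1 1 le_rfl (by omega)
    have h2 : Fb (pc (g t)) 1 = X := by
      rw [Fb_eq, Fin.sum_univ_one]
      simp [h1]
    rw [Qc, Finset.sum_range_one, hw, h2]
    simp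
  -- the exterior map
  set Ψ : ℂ → ℂ := fun x => x⁻¹ * g 0 x with hΨ
  set s : Set ℂ := {x | x ≠ 0 ∧ ‖x‖ < ρ} with hs
  have hsop : IsOpen s := isOpen_ne.inter (isOpen_lt continuous_norm continuous_const)
  have hΨd : DifferentiableOn ℂ Ψ s := by
    intro x hx
    have hxb : x ∈ ball (0 : ℂ) R := by
      rw [mem_ball_zero_iff]; exact hx.2.trans hρR
    exact ((differentiableAt_inv hx.1).mul ((hext 0 h0).diff.differentiableAt
      (isOpen_ball.mem_nhds hxb))).differentiableWithinAt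
  have hΨi : InjOn Ψ s := by
    intro x hx y hy hxy
    exact (hext 0 h0).inj x (by rw [mem_ball_zero_iff]; exact hx.2.trans hρR) y
      (by rw [mem_ball_zero_iff]; exact hy.2.trans hρR) hx.1 hy.1 hxy
  have himg : (EM n (3 * M) c j)ᶜ ⊆ Ψ '' s := by
    have h1 := compl_UU_subsetM hn hM0 hMM hG j hcB
    have h2 : UU (fun x => G j (c, x)) (radM n (3 * M) j) = Ψ '' s := by
      simp only [hΨ, hg, hγ0, UU, hs, hρdef]
    rw [← h2]
    exact compl_subset_comm.mp h1
  have hAAc : ∀ x ∈ ball (0 : ℂ) R, ∀ t ∈ ball c r, (t, x) ∈ AA n j := fun x hx t ht =>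
    mem_AA_of_BdJ hn hM0 (hBd t ht) hx
  have hbig : ∀ x ∈ s, 2 < ‖orb n c (Ψ x) j‖ := by
    intro x hx
    have hxR : x ∈ ball (0 : ℂ) R := by
      rw [mem_ball_zero_iff]; exact hx.2.trans hρR
    have h1 := (hG.isG j).conj c x (hAAc x hxR c (mem_ball_self hr)) hx.1
    have h2 : (fc n c)^[j] (Ψ x) = orb n c (Ψ x) j := by rw [fc_iter_eq]
    have h3 : Ψ x = x⁻¹ * G j (c, x) := by simp only [hΨ, hg, hγ0]
    rw [← h2, h3, h1, norm_pow, norm_inv, inv_pow]
    have h4 : ‖x‖ ^ (n ^ j) < 1 / (3 * M) := by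
      rw [← radM_pow hn (by linarith : (0 : ℝ) < 3 * M) j]
      exact pow_lt_pow_left₀ hx.2 (norm_nonneg _) (pow_ne_zero _ (by omega))
    have h5 : 0 < ‖x‖ ^ (n ^ j) := by have := norm_pos_iff.mpr hx.1; positivity
    rw [lt_inv_comm₀ (by norm_num) h5]
    refine h4.trans_le ?_
    rw [one_div]
    apply inv_anti₀ (by norm_num)
    linarith
  -- the velocity
  set v : ℂ → ℂ := fun z => 1 - S n c z (j + 1) with hv
  have hvel : ∀ x ∈ s, deriv (fun t => (Qc (g t) w 1).eval (x⁻¹ * g t x)) 0 =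
      r * v (Ψ x) := by
    intro x hx
    have hxR : x ∈ ball (0 : ℂ) R := by
      rw [mem_ball_zero_iff]; exact hx.2.trans hρR
    have hAA : ∀ t ∈ ball c r, (t, x) ∈ AA n j := hAAc x hxR
    set β : ℂ → ℂ := fun t => x⁻¹ * G j (t, x) with hβ
    have h1 : DifferentiableOn ℂ β (ball c r) := fun t ht =>
      ((seq_diff_param hn hG j t x (hAA t ht)).const_mul _).differentiableWithinAt
    have h2 : β c = Ψ x := by simp only [hβ, hΨ, hg, hγ0]
    have h3 : ∀ t ∈ ball c r, orb n t (β t) j = orb n c (Ψ x) j := by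
      intro t ht
      have h4 := (hG.isG j).conj t x (hAA t ht) hx.1
      have h5 := (hG.isG j).conj c x (hAA c (mem_ball_self hr)) hx.1
      rw [← fc_iter_eq, ← fc_iter_eq, ← h2, hβ]
      simp only
      rw [h4, h5]
    have h4 := deriv_motion' hn hcM hr (hbig x hx) h1 h2 h3
    have h5 : HasDerivAt γ r 0 := by
      simpa [hγdef] using ((hasDerivAt_id (0 : ℂ)).const_mul (r : ℂ)).const_add c
    have h6 : HasDerivAt β (v (Ψ x)) (γ 0) := by rw [hγ0]; exact h4
    have h7 : HasDerivAt (fun t => β (γ t)) (v (Ψ x) * r) 0 := h6.comp 0 h5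
    have h9 : (fun t => (Qc (g t) w 1).eval (x⁻¹ * g t x)) =ᶠ[𝓝 0] fun t => β (γ t) := by
      filter_upwards [isOpen_ball.mem_nhds h0] with t ht
      rw [hQc t ht, eval_X]
    rw [h9.deriv_eq, h7.deriv]
    ring
  -- the holomorphic function on the disc
  set a : ℕ → ℂ := fun k => if k = 0 then 0 else deriv (fun t => Bc g w 1 t (k - 1)) 0 with ha
  set F : ℂ → ℂ := fun x => if x = 0 then 0 else r * v (Ψ x) with hF
  have hsumF : ∀ x ∈ ball (0 : ℂ) ρ, HasSum (fun k => a k * x ^ k) (F x) := by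
    intro x hx
    rw [mem_ball_zero_iff] at hx
    rw [← hasSum_nat_add_iff' 1, Finset.sum_range_one]
    have ha0 : a 0 = 0 := by simp [ha]
    have ha1 : ∀ k, a (k + 1) = deriv (fun t => Bc g w 1 t k) 0 := fun k => by
      simp [ha]
    simp only [ha0, ha1, zero_mul, sub_zero]
    by_cases hx0 : x = 0
    · rw [hx0]
      have : F 0 = 0 := by simp [hF]
      rw [this]
      have h1 : (fun k : ℕ => deriv (fun t => Bc g w 1 t k) 0 * (0 : ℂ) ^ (k + 1)) = fun _ => 0 := by
        funext k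
        rw [zero_pow (by omega), mul_zero]
      rw [h1]
      exact hasSum_zero
    · have h1 := hasSum_deriv hρ hρR hext hhol w 1 hx hx0
      rw [hvel x ⟨hx0, hx⟩] at h1
      have h2 : F x = r * v (Ψ x) := by simp only [hF]; rw [if_neg hx0]
      rw [h2]
      exact h1
  have hFd := diff_of_hasSum hsumF
  have htc : a = tc F := tc_unique hρ hFd (by
    filter_upwards [ball_mem_nhds (0 : ℂ) hρ] with x hx using hsumF x hx)
  have hdisc := disc_sq (hFd.deriv isOpen_ball) hρ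
  have hEc : IsCompact (EM n (3 * M) c j) := isCompact_EM hn (by linarith) (by linarith) j
  -- the bound of the sum
  have hUUE : (UU (g 0) ρ)ᶜ ⊆ EM n (3 * M) c j := by
    have h1 := compl_UU_subsetM hn hM0 hMM hG j hcB
    simp only [hg, hγ0]
    exact h1
  have hvol : ∫ z in (UU (g 0) ρ)ᶜ, ‖(derivative (Qc (g 0) w 1)).eval z‖ ^ 2 ≤
      (volume (EM n (3 * M) c j)).toReal := by
    rw [hQc 0 h0]
    simp only [derivative_X, eval_one, norm_one, one_pow]
    rw [setIntegral_const, smul_eq_mul, mul_one]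
    exact ENNReal.toReal_mono hEc.measure_lt_top.ne (measure_mono hUUE)
  have hbound : ∫⁻ x in ball (0 : ℂ) ρ, ENNReal.ofReal (‖deriv F x‖ ^ 2) ≤
      volume (EM n (3 * M) c j) := by
    rw [hdisc]
    apply ENNReal.tsum_le_of_sum_range_le
    intro J
    rw [← ENNReal.ofReal_sum_of_nonneg (fun k _ => by positivity),
      ← ENNReal.ofReal_toReal hEc.measure_lt_top.ne]
    apply ENNReal.ofReal_le_ofReal
    have h1 := sum_deriv_le hρ hρR hext hhol w 1 J
    have h3 : ∑ k ∈ Finset.range J, Real.pi * ‖tc (deriv F) k‖ ^ 2 * ρ ^ (2 * (k + 1)) / (k + 1) =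
        Real.pi * ∑ j ∈ Finset.range J, (((j : ℝ) + 1) * ρ ^ (2 * (j + 1))) *
          ‖deriv (fun t => Bc g w 1 t j) 0‖ ^ 2 := by
      rw [Finset.mul_sum]
      apply Finset.sum_congr rfl
      intro k _
      rw [tc_deriv, ← htc]
      have h4 : a (k + 1) = deriv (fun t => Bc g w 1 t k) 0 := by simp [ha]
      have h5 : ‖(k : ℂ) + 1‖ = (k : ℝ) + 1 := by
        have : ((k : ℂ) + 1) = (((k : ℝ) + 1 : ℝ) : ℂ) := by push_cast; ring
        rw [this, Complex.norm_real, Real.norm_eq_abs, abs_of_pos (by positivity)]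
      rw [norm_mul, h5, h4]
      field_simp
    rw [h3]
    calc Real.pi * _ ≤ Real.pi * (1 / Real.pi *
          ∫ z in (UU (g 0) ρ)ᶜ, ‖(derivative (Qc (g 0) w 1)).eval z‖ ^ 2) :=
          mul_le_mul_of_nonneg_left h1 hpi.le
      _ = ∫ z in (UU (g 0) ρ)ᶜ, ‖(derivative (Qc (g 0) w 1)).eval z‖ ^ 2 := by field_simp
      _ ≤ _ := hvol
  refine le_trans ?_ hbound
  -- the change of variables
  refine le_trans (mul_le_mul_right (lintegral_mono_set himg) _) ?_
  have hcv := Pool.Agent.Helper859.Br.A2.cv hsop hΨd hΨi hsop.measurableSet (Subset.refl s)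
    (fun z => ENNReal.ofReal (‖deriv (fun z => 1 - S n c z (j + 1)) z‖ ^ 2))
  rw [hcv, ← lintegral_const_mul' _ _ ENNReal.ofReal_ne_top]
  have hss : s ⊆ ball 0 ρ := fun x hx => mem_ball_zero_iff.mpr hx.2
  refine le_trans ?_ (lintegral_mono_set hss)
  apply setLIntegral_mono' hsop.measurableSet
  intro x hx
  rw [← ENNReal.ofReal_mul (by positivity), ← ENNReal.ofReal_mul (by positivity)]
  apply ENNReal.ofReal_le_ofReal
  apply le_of_eq
  have h1 : HasDerivAt Ψ (deriv Ψ x) x := (hΨd.differentiableAt (hsop.mem_nhds hx)).hasDerivAt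
  have h2 : DifferentiableAt ℂ (fun z => 1 - S n c z (j + 1)) (Ψ x) := by
    apply DifferentiableAt.const_sub
    exact Pool.Agent.W746.LD.differentiableAt_S (j + 1) fun i _ =>
      Pool.Agent.W746.LD.P_ne_zero hn fun m hm => orb_ne_of_big hn hcM (hbig x hx) m (by omega)
  have h3 := (h2.hasDerivAt.comp x h1).const_mul (r : ℂ)
  have h4 : F =ᶠ[𝓝 x] fun x => (r : ℂ) * ((fun z => 1 - S n c z (j + 1)) ∘ Ψ) x := by
    filter_upwards [hsop.mem_nhds hx] with y hy
    simp only [hF]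
    rw [if_neg hy.1]
    rfl
  rw [h4.deriv_eq, h3.deriv, norm_mul, norm_mul, Complex.norm_real, Real.norm_eq_abs,
    abs_of_pos hr]
  ring

end Pool.Agent.X151.IR
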