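import Mathlib
import Pool.Agent.X151.IR.LevelM
import Pool.Agent.H713R2.AR.GF

/-!
# The Dirichlet integral of the velocity outside a sublevel set of the escape rate (helper151)
-/

set_option autoImplicit false

open Complex Topology Filter Metric MeasureTheory Set Polynomial N62a1eb23

namespace Pool.Agent.X151.IR

open Pool.Agent.H713R2 Pool.Agent.H712R2 Pool.Agent.H713R2.AR Pool.Agent.X151.MH
open Pool.Agent.W746.LD (orb S hasDerivAt_orb orb_succ orb_zero P_eq_orb)
open Pool.Agent.X151.MU Pool.Agent.X151.MA Pool.Agent.X151.MD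

variable {n : ℕ}

theorem esc_of_green_pos (hn : 2 ≤ n) {c : ℂ} (hcM : c ∈ multibrotSet n) {z : ℂ}
    (h : 0 < green n c z) : Esc n c z := by
  have hc2 : ‖c‖ ≤ 2 := norm_le_two_of_sub hn hcM
  have hnR : (2 : ℝ) ≤ n := by exact_mod_cast hn
  by_contra hcon
  have hz0 : z ∈ ⋂ j, EE n c j := by
    rw [iInter_EE hn hc2]
    exact hcon
  have hz := mem_iInter.mp hz0
  have h1 : ∀ k : ℕ, gap n c z k ≤ Real.posLog 3 / (n : ℝ) ^ k := by
    intro k
    unfold gap
    apply div_le_div_of_nonneg_right _ (by positivity)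
    have h2 : ‖orb n c z k‖ ≤ 3 := hz k
    exact Real.posLog_le_posLog (norm_nonneg _) h2
  have h2 : Tendsto (fun k : ℕ => Real.posLog 3 / (n : ℝ) ^ k) atTop (𝓝 0) :=
    (tendsto_pow_atTop_atTop_of_one_lt (by linarith)).const_div_atTop _
  have h3 := le_of_tendsto_of_tendsto' (gap_tendsto hn c z) h2 h1
  linarith

/-- **The Dirichlet integral of the velocity, at parameters near which the escape rate is small.** -/
theorem dirM (hn : 2 ≤ n) {c : ℂ} (hcM : c ∈ multibrotSet n) {r : ℝ} (hr : 0 < r) {s : ℝ}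
    (hs : ∀ t ∈ ball c r, green n t t ≤ s) {s₁ : ℝ} (hs₁ : s / n < s₁) :
    ENNReal.ofReal (r ^ 2) * ∫⁻ z in {z : ℂ | s₁ < green n c z},
      ENNReal.ofReal (‖deriv (V n c) z‖ ^ 2) ≤ volume {z : ℂ | green n c z ≤ s₁} := by
  have hc2 : ‖c‖ ≤ 2 := norm_le_two_of_sub hn hcM
  have hnR : (2 : ℝ) ≤ n := by exact_mod_cast hn
  have hs0 : 0 ≤ s := (green_nonneg hn _ _).trans (hs c (mem_ball_self hr))
  have hs₁0 : 0 < s₁ := lt_of_le_of_lt (by positivity) hs₁
  obtain ⟨A, hAdef⟩ : ∃ A : ℝ, A = 2 + r := ⟨_, rfl⟩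
  have hA : 1 ≤ A := by rw [hAdef]; linarith
  have htA : ∀ t ∈ ball c r, ‖t‖ ≤ A := by
    intro t ht
    rw [mem_ball, dist_eq_norm] at ht
    have := norm_add_le (t - c) c
    rw [sub_add_cancel] at this
    rw [hAdef]
    linarith
  have hcA : ‖c‖ ≤ A := htA c (mem_ball_self hr)
  obtain ⟨κ, hκ⟩ : ∃ κ : ℝ, κ = Real.log (6 * A) + Real.log (2 * A) := ⟨_, rfl⟩
  have hκ0 : 0 ≤ κ := by
    rw [hκ]
    exact add_nonneg (Real.log_nonneg (by linarith)) (Real.log_nonneg (by linarith))
  set U : Set ℂ := {z : ℂ | s₁ < green n c z} with hU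
  have hUm : MeasurableSet U := (isOpen_lt continuous_const (continuous_green hn c)).measurableSet
  set Φ : ℕ → ℂ → ENNReal := fun j z => ENNReal.ofReal
    (‖deriv (fun z => 1 - S n c z (j + 1 + 1)) z‖ ^ 2) with hΦ
  set Φ' : ℂ → ENNReal := fun z => ENNReal.ofReal (‖deriv (V n c) z‖ ^ 2) with hΦ'
  have hm : ∀ j, Measurable (Φ j) := fun j =>
    ENNReal.measurable_ofReal.comp (((measurable_deriv _).norm).pow_const 2)
  -- the levels
  have hlev : ∀ᶠ j : ℕ in atTop, ENNReal.ofReal (r ^ 2) * ∫⁻ z in U, Φ j z ≤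
      volume {z : ℂ | green n c z ≤ s₁} := by
    have h1 : Tendsto (fun j : ℕ => s / n + κ / (n : ℝ) ^ (j + 1)) atTop (𝓝 (s / n + 0)) := by
      apply Tendsto.const_add
      have h2 : Tendsto (fun j : ℕ => (n : ℝ) ^ (j + 1)) atTop atTop :=
        (tendsto_pow_atTop_atTop_of_one_lt (by linarith)).comp (tendsto_add_atTop_nat 1)
      exact h2.const_div_atTop _
    rw [add_zero] at h1
    filter_upwards [h1.eventually (gt_mem_nhds hs₁)] with j hj
    have hdj : (0 : ℝ) < (n : ℝ) ^ j := by positivity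
    set M : ℝ := 2 * A * Real.exp ((n : ℝ) ^ j * s) with hM
    have hexp : 1 ≤ Real.exp ((n : ℝ) ^ j * s) := Real.one_le_exp (by positivity)
    have hM2 : 2 ≤ M := by rw [hM]; nlinarith
    have hBd : ∀ t ∈ ball c r, BdJ n M (j + 1) t := by
      intro t ht i hi1 hi2
      obtain ⟨i, rfl⟩ : ∃ l, i = l + 1 := ⟨i - 1, by omega⟩
      have h1 := norm_iter_le hn hA (htA t ht) t i
      rw [iter_c hn] at h1
      refine h1.trans ?_
      rw [hM]
      apply mul_le_mul_of_nonneg_left _ (by linarith)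
      apply Real.exp_le_exp.mpr
      apply mul_le_mul
      · exact pow_le_pow_right₀ (by linarith) (by omega)
      · exact hs t ht
      · exact green_nonneg hn _ _
      · positivity
    have h2 := level_dirM hn hcM hr (M := M) (by linarith) (j + 1) hBd
    have hsub : EM n (3 * M) c (j + 1) ⊆ {z : ℂ | green n c z ≤ s₁} := by
      intro z hz
      have hz' : ‖(fc n c)^[j + 1] z‖ ≤ 3 * M := hz
      have h2 := (abs_le.mp (green_near hn hA hcA z (j + 1))).2
      have h3 : gap n c z (j + 1) ≤ (Real.log (6 * A) + (n : ℝ) ^ j * s) / (n : ℝ) ^ (j + 1) := by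
        unfold gap
        apply div_le_div_of_nonneg_right _ (by positivity)
        refine (Real.posLog_le_posLog (norm_nonneg _) hz').trans ?_
        rw [Real.posLog_eq_log (by rw [abs_of_nonneg (by linarith)]; linarith), hM,
          show 3 * (2 * A * Real.exp ((n : ℝ) ^ j * s)) = 6 * A * Real.exp ((n : ℝ) ^ j * s) by ring,
          Real.log_mul (by linarith) (Real.exp_pos _).ne', Real.log_exp]
      have h4 : (Real.log (6 * A) + (n : ℝ) ^ j * s) / (n : ℝ) ^ (j + 1) +
          Real.log (2 * A) / (n : ℝ) ^ (j + 1) = s / n + κ / (n : ℝ) ^ (j + 1) := by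
        rw [hκ, pow_succ]
        field_simp
        ring
      change green n c z ≤ s₁
      linarith
    have hsub' : U ⊆ (EM n (3 * M) c (j + 1))ᶜ := by
      intro z hz hz2
      have h3 : green n c z ≤ s₁ := hsub hz2
      have h4 : s₁ < green n c z := hz
      linarith
    refine le_trans ?_ (h2.trans (measure_mono hsub))
    exact mul_le_mul_right (lintegral_mono_set hsub') _
  -- pointwise convergence
  have hpt : ∀ z ∈ U, Tendsto (fun j => Φ j z) atTop (𝓝 (Φ' z)) := by
    intro z hz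
    have hz' : s₁ < green n c z := hz
    have h1 := (deriv_V hn hcM (esc_of_green_pos hn hcM (by linarith : 0 < green n c z))).2
    have h2 := h1.comp (tendsto_add_atTop_nat 1)
    exact (ENNReal.continuous_ofReal.tendsto _).comp ((h2.norm).pow 2)
  have hfat : ∫⁻ z in U, Φ' z ≤ liminf (fun j => ∫⁻ z in U, Φ j z) atTop := by
    have h1 : ∫⁻ z in U, Φ' z = ∫⁻ z in U, liminf (fun j => Φ j z) atTop :=
      setLIntegral_congr_fun hUm fun z hz => (hpt z hz).liminf_eq.symm
    rw [h1]
    exact lintegral_liminf_le hm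
  have hr2 : ENNReal.ofReal (r ^ 2) ≠ 0 := by
    rw [ne_eq, ENNReal.ofReal_eq_zero, not_le]
    positivity
  refine (ENNReal.mul_le_iff_le_inv hr2 ENNReal.ofReal_ne_top).mpr (hfat.trans ?_)
  refine liminf_le_of_frequently_le' (Eventually.frequently ?_)
  filter_upwards [hlev] with j hj
  exact (ENNReal.mul_le_iff_le_inv hr2 ENNReal.ofReal_ne_top).mp hj

end Pool.Agent.X151.IR
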