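import Mathlib
import Pool.Agent.X151.IR.A
import Pool.Agent.X151.IR.LimM

/-!
# Fast growth of the Dirichlet energy of the velocity forces Green's function of the Multibrot set to
be large (helper151)
-/

set_option autoImplicit false

open Filter Topology Set Metric MeasureTheory Complex N62a1eb23

namespace Pool.Agent.X151.IR

open Pool.Agent.H713R2 Pool.Agent.H713R2.AR Pool.Agent.H637R4.PO Pool.Agent.Y736.RN
open Pool.Agent.X151.MU (V)

variable {n : ℕ} {ψ : ℂ → ℂ}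

/-- The Dirichlet energy of the velocity outside the sublevel set of the escape rate. -/
noncomputable def En (n : ℕ) (c : ℂ) (s : ℝ) : ENNReal :=
  ∫⁻ z in {z : ℂ | s < green n c z}, ENNReal.ofReal (‖deriv (V n c) z‖ ^ 2)

theorem green_le_of_small (hn : 2 ≤ n) (hψ : IsExteriorMap (multibrotSet n) ψ) {c : ℂ} {ρ s : ℝ}
    (hs : 0 ≤ s) (h : ∀ w : ℂ, 1 < ‖w‖ → ‖ψ w - c‖ ≤ ρ → Real.log ‖w‖ ≤ s) :
    ∀ t ∈ ball c ρ, green n t t ≤ s := by
  intro t ht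
  by_cases hm : t ∈ multibrotSet n
  · rw [t_GRM n hn t hm]
    exact hs
  · have h2 : t ∈ ψ '' {z | 1 < ‖z‖} := by rw [hψ.image]; exact hm
    obtain ⟨w, hw, rfl⟩ := h2
    refine (green_exterior_le hn hψ hw).trans (h w hw ?_)
    rw [mem_ball, dist_eq_norm] at ht
    exact ht.le

theorem big_of_energy (hn : 2 ≤ n) (hψ : IsExteriorMap (multibrotSet n) ψ) {c : ℂ}
    (hc : c ∈ multibrotSet n) {κ ε : ℝ} (hκ : 0 < κ) (hε : 2 / κ < ε)
    (h : ∃ᶠ s : ℝ in 𝓝[>] 0, ENNReal.ofReal (s ^ (-ε)) < En n c s) : Big ψ κ c := by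
  by_contra hB
  have hnR : (2 : ℝ) ≤ n := by exact_mod_cast hn
  have h1 : ∀ᶠ r : ℝ in 𝓝[>] 0, ¬ ∃ w : ℂ, 1 < ‖w‖ ∧ ‖ψ w - c‖ ≤ r ∧
      1 * r ^ κ ≤ Real.log ‖w‖ := by
    rw [← not_frequently]
    intro hf
    exact hB ⟨1, one_pos, hf⟩
  have hκ1 : 0 < 1 / κ := by positivity
  have h2 := (tendsto_scale one_pos hκ1).eventually h1
  obtain ⟨C, hC⟩ : ∃ C, C = (volume {z : ℂ | green n c z ≤ 1}).toReal := ⟨_, rfl⟩
  have hCfin : volume {z : ℂ | green n c z ≤ 1} ≠ ⊤ := (isCompact_GLev hn c 1).measure_lt_top.ne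
  have hC0 : 0 ≤ C := by rw [hC]; exact ENNReal.toReal_nonneg
  obtain ⟨δ, hδ⟩ : ∃ δ, δ = ε - 2 / κ := ⟨_, rfl⟩
  have hδ0 : 0 < δ := by rw [hδ]; linarith
  have h3 : ∀ᶠ s : ℝ in 𝓝[>] 0, (C + 1) * s ^ δ < 1 :=
    ((tendsto_scale (by linarith : 0 < C + 1) hδ0).mono_right nhdsWithin_le_nhds).eventually
      (gt_mem_nhds one_pos)
  have h4 : ∀ᶠ s : ℝ in 𝓝[>] 0, 0 < s := self_mem_nhdsWithin
  have h5 : ∀ᶠ s : ℝ in 𝓝[>] 0, s < 1 := nhdsWithin_le_nhds (gt_mem_nhds one_pos)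
  obtain ⟨s, hs, hs2, hs3, hs0, hs1⟩ := (h.and_eventually (h2.and (h3.and (h4.and h5)))).exists
  push Not at hs2
  rw [one_mul] at hs2
  have hr0 : 0 < s ^ (1 / κ) := Real.rpow_pos_of_pos hs0 _
  have hrκ : (s ^ (1 / κ)) ^ κ = s := by
    rw [← Real.rpow_mul hs0.le, one_div_mul_cancel hκ.ne', Real.rpow_one]
  have hball := green_le_of_small hn hψ (c := c) (ρ := s ^ (1 / κ)) hs0.le (fun w hw1 hw2 => by
    have := hs2 w hw1 hw2
    rw [one_mul, hrκ] at this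
    exact this.le)
  have hdir := dirM hn hc hr0 hball (s₁ := s) (by
    rw [div_lt_iff₀ (by linarith)]
    nlinarith)
  have hr2 : (s ^ (1 / κ)) ^ 2 = s ^ (2 / κ) := by
    rw [← Real.rpow_natCast, ← Real.rpow_mul hs0.le]
    congr 1
    push_cast
    ring
  rw [hr2] at hdir
  have h6 : ENNReal.ofReal (s ^ (2 / κ)) * ENNReal.ofReal (s ^ (-ε)) ≤ ENNReal.ofReal C := by
    rw [hC, ENNReal.ofReal_toReal hCfin]
    refine (mul_le_mul_right hs.le _).trans (hdir.trans (measure_mono ?_))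
    intro z hz
    have hz' : green n c z ≤ s := hz
    show green n c z ≤ 1
    linarith
  have hsδ : 0 < s ^ δ := Real.rpow_pos_of_pos hs0 _
  rw [← ENNReal.ofReal_mul (by positivity), ENNReal.ofReal_le_ofReal_iff hC0,
    ← Real.rpow_add hs0] at h6
  have h7 : s ^ (2 / κ + -ε) * s ^ δ = 1 := by
    rw [← Real.rpow_add hs0, hδ]
    have : 2 / κ + -ε + (ε - 2 / κ) = 0 := by ring
    rw [this, Real.rpow_zero]
  have h8 : 1 ≤ C * s ^ δ := by
    rw [← h7]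
    gcongr
  nlinarith

end Pool.Agent.X151.IR
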