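import Mathlib
import Pool.Agent.X151.IR.LimM

/-!
# Velocities of escaping points at parameters near which the escape rate is small (helper151)
-/

set_option autoImplicit false

open Complex Topology Filter Metric MeasureTheory Set Polynomial N62a1eb23

namespace Pool.Agent.X151.IR

open Pool.Agent.H713R2 Pool.Agent.H712R2 Pool.Agent.H713R2.AR Pool.Agent.X151.MH
open Pool.Agent.W746.LD (orb S hasDerivAt_orb orb_succ orb_zero P_eq_orb)
open Pool.Agent.X151.MU Pool.Agent.X151.MA Pool.Agent.X151.MD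
open Pool.Agent.TH363.QI (C₁ C₁_nonneg)

variable {n : ℕ}

/-- Two escaping points move holomorphically without collision. -/
theorem motion_pair (hn : 2 ≤ n) {c : ℂ} (hcM : c ∈ multibrotSet n) {r : ℝ} (hr : 0 < r) {s : ℝ}
    (hs : ∀ t ∈ ball c r, green n t t ≤ s) {z w : ℂ} (hz : s / n < green n c z)
    (hw : s / n < green n c w) :
    ∀ᶠ j : ℕ in atTop, ∃ β γ : ℂ → ℂ, DifferentiableOn ℂ β (ball c r) ∧
      DifferentiableOn ℂ γ (ball c r) ∧ (z ≠ w → ∀ t ∈ ball c r, β t ≠ γ t) ∧ β c = z ∧ γ c = w ∧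
      HasDerivAt β (1 - S n c z (j + 1 + 1)) c ∧ HasDerivAt γ (1 - S n c w (j + 1 + 1)) c ∧
      (∀ t ∈ ball c r, ‖β t‖ ≤ 2 * (2 + r) *
        Real.exp (green n c z + 2 * Real.log (2 * (2 + r)) / (n : ℝ) ^ (j + 1))) ∧
      (∀ t ∈ ball c r, ‖γ t‖ ≤ 2 * (2 + r) *
        Real.exp (green n c w + 2 * Real.log (2 * (2 + r)) / (n : ℝ) ^ (j + 1))) := by
  obtain ⟨G, hG⟩ := exists_seq hn
  have hc2 : ‖c‖ ≤ 2 := norm_le_two_of_sub hn hcM
  have hnR : (2 : ℝ) ≤ n := by exact_mod_cast hn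
  have hs0 : 0 ≤ s := (green_nonneg hn _ _).trans (hs c (mem_ball_self hr))
  obtain ⟨A, hAdef⟩ : ∃ A : ℝ, A = 2 + r := ⟨_, rfl⟩
  have hA : 1 ≤ A := by rw [hAdef]; linarith
  have htA : ∀ t ∈ ball c r, ‖t‖ ≤ A := by
    intro t ht
    rw [mem_ball, dist_eq_norm] at ht
    have := norm_add_le (t - c) c
    rw [sub_add_cancel] at this
    rw [hAdef]
    linarith
  have hcA : ‖c‖ ≤ A := htA c (mem_ball_self hr)
  rw [← hAdef]
  obtain ⟨κ, hκ⟩ : ∃ κ : ℝ, κ = Real.log (6 * A) + Real.log (2 * A) := ⟨_, rfl⟩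
  have h1 : Tendsto (fun j : ℕ => s / n + κ / (n : ℝ) ^ (j + 1)) atTop (𝓝 (s / n + 0)) := by
    apply Tendsto.const_add
    have h2 : Tendsto (fun j : ℕ => (n : ℝ) ^ (j + 1)) atTop atTop :=
      (tendsto_pow_atTop_atTop_of_one_lt (by linarith)).comp (tendsto_add_atTop_nat 1)
    exact h2.const_div_atTop _
  rw [add_zero] at h1
  filter_upwards [h1.eventually (gt_mem_nhds hz), h1.eventually (gt_mem_nhds hw)] with j hjz hjw
  have hdj : (0 : ℝ) < (n : ℝ) ^ j := by positivity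
  set M : ℝ := 2 * A * Real.exp ((n : ℝ) ^ j * s) with hM
  have hexp : 1 ≤ Real.exp ((n : ℝ) ^ j * s) := Real.one_le_exp (by positivity)
  have hM2 : 2 ≤ M := by rw [hM]; nlinarith
  have hM0 : 0 < M := by linarith
  have hMM : M < 3 * M := by linarith
  have hBd : ∀ t ∈ ball c r, BdJ n M (j + 1) t := by
    intro t ht i hi1 hi2
    obtain ⟨i, rfl⟩ : ∃ l, i = l + 1 := ⟨i - 1, by omega⟩
    have h1 := norm_iter_le hn hA (htA t ht) t i
    rw [iter_c hn] at h1
    refine h1.trans ?_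
    rw [hM]
    apply mul_le_mul_of_nonneg_left _ (by linarith)
    apply Real.exp_le_exp.mpr
    apply mul_le_mul
    · exact pow_le_pow_right₀ (by linarith) (by omega)
    · exact hs t ht
    · exact green_nonneg hn _ _
    · positivity
  have hlev : ∀ u : ℂ, s / n + κ / (n : ℝ) ^ (j + 1) < green n c u →
      3 * M < ‖orb n c u (j + 1)‖ := by
    intro u hu
    by_contra hcon
    push Not at hcon
    have hz' : ‖(fc n c)^[j + 1] u‖ ≤ 3 * M := hcon
    have h2 := (abs_le.mp (green_near hn hA hcA u (j + 1))).2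
    have h3 : gap n c u (j + 1) ≤ (Real.log (6 * A) + (n : ℝ) ^ j * s) / (n : ℝ) ^ (j + 1) := by
      unfold gap
      apply div_le_div_of_nonneg_right _ (by positivity)
      refine (Real.posLog_le_posLog (norm_nonneg _) hz').trans ?_
      rw [Real.posLog_eq_log (by rw [abs_of_nonneg (by linarith)]; linarith), hM,
        show 3 * (2 * A * Real.exp ((n : ℝ) ^ j * s)) = 6 * A * Real.exp ((n : ℝ) ^ j * s) by ring,
        Real.log_mul (by linarith) (Real.exp_pos _).ne', Real.log_exp]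
    have h4 : (Real.log (6 * A) + (n : ℝ) ^ j * s) / (n : ℝ) ^ (j + 1) +
        Real.log (2 * A) / (n : ℝ) ^ (j + 1) = s / n + κ / (n : ℝ) ^ (j + 1) := by
      rw [hκ, pow_succ]
      field_simp
      ring
    linarith
  -- the charts
  have hchart : ∀ u : ℂ, s / n + κ / (n : ℝ) ^ (j + 1) < green n c u →
      ∃ x : ℂ, x ≠ 0 ∧ ‖x‖ < radM n M (j + 1) ∧ x⁻¹ * G (j + 1) (c, x) = u := by
    intro u hu
    have h2 := hlev u hu
    have h3 : u ∈ UU (fun x => G (j + 1) (c, x)) (radM n (3 * M) (j + 1)) := by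
      by_contra h4
      have h5 := compl_UU_subsetM hn hM0 hMM hG (j + 1) (hBd c (mem_ball_self hr)) h4
      have h6 : ‖(fc n c)^[j + 1] u‖ ≤ 3 * M := h5
      exact absurd h6 (not_le.mpr h2)
    obtain ⟨x, ⟨hx0, hx1⟩, hx2⟩ := h3
    exact ⟨x, hx0, hx1.trans (radM_lt hn hM0 hMM (j + 1)), hx2⟩
  have hAA : ∀ x : ℂ, ‖x‖ < radM n M (j + 1) → ∀ t ∈ ball c r, (t, x) ∈ AA n (j + 1) :=
    fun x hx t ht => mem_AA_of_BdJ hn hM0 (hBd t ht) (mem_ball_zero_iff.mpr hx)
  have hone : ∀ (u x : ℂ), s / n + κ / (n : ℝ) ^ (j + 1) < green n c u → x ≠ 0 →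
      ‖x‖ < radM n M (j + 1) → x⁻¹ * G (j + 1) (c, x) = u →
      DifferentiableOn ℂ (fun t => x⁻¹ * G (j + 1) (t, x)) (ball c r) ∧
      HasDerivAt (fun t => x⁻¹ * G (j + 1) (t, x)) (1 - S n c u (j + 1 + 1)) c ∧
      ∀ t ∈ ball c r, ‖x⁻¹ * G (j + 1) (t, x)‖ ≤ 2 * A *
        Real.exp (green n c u + 2 * Real.log (2 * A) / (n : ℝ) ^ (j + 1)) := by
    intro u x hu hx0 hx hxu
    have h1 : DifferentiableOn ℂ (fun t => x⁻¹ * G (j + 1) (t, x)) (ball c r) := fun t ht =>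
      ((seq_diff_param hn hG (j + 1) t x (hAA x hx t ht)).const_mul _).differentiableWithinAt
    have h3 : ∀ t ∈ ball c r, orb n t (x⁻¹ * G (j + 1) (t, x)) (j + 1) = orb n c u (j + 1) := by
      intro t ht
      have h4 := (hG.isG (j + 1)).conj t x (hAA x hx t ht) hx0
      have h5 := (hG.isG (j + 1)).conj c x (hAA x hx c (mem_ball_self hr)) hx0
      rw [← fc_iter_eq, ← fc_iter_eq, ← hxu, h4, h5]
    refine ⟨h1, deriv_motion' hn hcM hr (by have := hlev u hu; linarith) h1 hxu h3, ?_⟩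
    intro t ht
    have h6 := norm_iter_le hn hA (htA t ht) (x⁻¹ * G (j + 1) (t, x)) 0
    simp only [Function.iterate_zero, id_eq, pow_zero, one_mul] at h6
    refine h6.trans ?_
    apply mul_le_mul_of_nonneg_left _ (by linarith)
    apply Real.exp_le_exp.mpr
    have h7 := (abs_le.mp (green_near hn hA (htA t ht) (x⁻¹ * G (j + 1) (t, x)) (j + 1))).2
    have h8 := (abs_le.mp (green_near hn hA hcA u (j + 1))).1
    have h9 : gap n t (x⁻¹ * G (j + 1) (t, x)) (j + 1) = gap n c u (j + 1) := by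
      have h10 : (fc n t)^[j + 1] (x⁻¹ * G (j + 1) (t, x)) = (fc n c)^[j + 1] u := h3 t ht
      unfold gap
      rw [h10]
    have h10 : 2 * Real.log (2 * A) / (n : ℝ) ^ (j + 1) = Real.log (2 * A) / (n : ℝ) ^ (j + 1) +
        Real.log (2 * A) / (n : ℝ) ^ (j + 1) := by ring
    rw [h9] at h7
    linarith
  obtain ⟨x, hx0, hx, hxz⟩ := hchart z hjz
  obtain ⟨y, hy0, hy, hyw⟩ := hchart w hjw
  obtain ⟨a1, a2, a3⟩ := hone z x hjz hx0 hx hxz
  obtain ⟨b1, b2, b3⟩ := hone w y hjw hy0 hy hyw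
  refine ⟨_, _, a1, b1, ?_, hxz, hyw, a2, b2, a3, b3⟩
  intro hzw t ht h
  have h2 := (isExt_seqM hn hM0 hG (j + 1) (hBd t ht)).inj x (mem_ball_zero_iff.mpr hx) y
    (mem_ball_zero_iff.mpr hy) hx0 hy0 h
  apply hzw
  rw [← hxz, ← hyw, h2]

/-- The limit of the approximate velocities. -/
theorem tendsto_vel (hn : 2 ≤ n) {c : ℂ} (hcM : c ∈ multibrotSet n) {z : ℂ}
    (hz : 0 < green n c z) :
    Tendsto (fun j : ℕ => 1 - S n c z (j + 1 + 1)) atTop (𝓝 (V n c z)) :=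
  ((tendsto_S hn (esc_of_green_pos hn hcM hz)).const_sub 1).comp (tendsto_add_atTop_nat 1)

theorem tendsto_bd (hn : 2 ≤ n) (c z : ℂ) (r : ℝ) :
    Tendsto (fun j : ℕ => 2 * (2 + r) *
        Real.exp (green n c z + 2 * Real.log (2 * (2 + r)) / (n : ℝ) ^ (j + 1))) atTop
      (𝓝 (2 * (2 + r) * Real.exp (green n c z))) := by
  have hnR : (2 : ℝ) ≤ n := by exact_mod_cast hn
  have h2 : Tendsto (fun j : ℕ => (n : ℝ) ^ (j + 1)) atTop atTop :=
    (tendsto_pow_atTop_atTop_of_one_lt (by linarith)).comp (tendsto_add_atTop_nat 1)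
  have h3 := (h2.const_div_atTop (2 * Real.log (2 * (2 + r)))).const_add (green n c z)
  rw [add_zero] at h3
  exact ((Real.continuous_exp.tendsto _).comp h3).const_mul _

/-- The bound of the velocity. -/
theorem vel_bound (hn : 2 ≤ n) {c : ℂ} (hcM : c ∈ multibrotSet n) {r : ℝ} (hr : 0 < r) {s : ℝ}
    (hs : ∀ t ∈ ball c r, green n t t ≤ s) {z : ℂ} (hz : s / n < green n c z) :
    r * ‖V n c z‖ ≤ 2 * (2 + r) * Real.exp (green n c z) := by
  have hnR : (2 : ℝ) ≤ n := by exact_mod_cast hn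
  have hs0 : 0 ≤ s := (green_nonneg hn _ _).trans (hs c (mem_ball_self hr))
  have hz0 : 0 < green n c z := lt_of_le_of_lt (by positivity) hz
  have h1 := (tendsto_vel hn hcM hz0).norm.const_mul r
  refine le_of_tendsto_of_tendsto h1 (tendsto_bd hn c z r) ?_
  filter_upwards [motion_pair hn hcM hr hs hz hz] with j hj
  obtain ⟨β, _, hβ, _, _, hβc, _, hder, _, hbd, _⟩ := hj
  have h2 : ∀ ρ ∈ Ioo (0 : ℝ) r, ρ * ‖1 - S n c z (j + 1 + 1)‖ ≤ 2 * (2 + r) *
        Real.exp (green n c z + 2 * Real.log (2 * (2 + r)) / (n : ℝ) ^ (j + 1)) := by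
    intro ρ hρ
    have h3 : closedBall c ρ ⊆ ball c r := closedBall_subset_ball hρ.2
    have h4 : DiffContOnCl ℂ β (ball c ρ) := by
      apply DifferentiableOn.diffContOnCl
      rw [closure_ball c hρ.1.ne']
      exact hβ.mono h3
    have h5 := Complex.norm_deriv_le_of_forall_mem_sphere_norm_le hρ.1 h4
      (fun t ht => hbd t (h3 (sphere_subset_closedBall ht)))
    rw [hder.deriv, le_div_iff₀ hρ.1] at h5
    linarith
  have h3 : Tendsto (fun ρ : ℝ => ρ * ‖1 - S n c z (j + 1 + 1)‖) (𝓝[<] r)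
      (𝓝 (r * ‖1 - S n c z (j + 1 + 1)‖)) :=
    ((continuous_id.mul continuous_const).tendsto r).mono_left nhdsWithin_le_nhds
  refine le_of_tendsto h3 ?_
  filter_upwards [Ioo_mem_nhdsLT hr] with ρ hρ using h2 ρ hρ

/-- The modulus of continuity of the velocity. -/
theorem vel_modulus (hn : 2 ≤ n) {c : ℂ} (hcM : c ∈ multibrotSet n) {r : ℝ} (hr : 0 < r)
    (hr4 : r ≤ 1 / 4) {s : ℝ}
    (hs : ∀ t ∈ ball c r, green n t t ≤ s) {z w : ℂ} (hz : s / n < green n c z)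
    (hw : s / n < green n c w) (hz4 : green n c z ≤ 1 / 4) (hw4 : green n c w ≤ 1 / 4) :
    r * ‖V n c z - V n c w‖ ≤ (4 * C₁ + 24) * ‖z - w‖ * (1 + |Real.log ‖z - w‖|) := by
  rcases eq_or_ne z w with rfl | hzw
  · simp
  have hnR : (2 : ℝ) ≤ n := by exact_mod_cast hn
  have hs0 : 0 ≤ s := (green_nonneg hn _ _).trans (hs c (mem_ball_self hr))
  have hz0 : 0 < green n c z := lt_of_le_of_lt (by positivity) hz
  have hw0 : 0 < green n c w := lt_of_le_of_lt (by positivity) hw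
  have h1 := ((tendsto_vel hn hcM hz0).sub (tendsto_vel hn hcM hw0)).norm.const_mul r
  refine le_of_tendsto h1 ?_
  have hsix : ∀ u : ℂ, green n c u ≤ 1 / 4 → 2 * (2 + r) * Real.exp (green n c u) < 6 := by
    intro u hu
    have h2 : Real.exp (green n c u) ≤ Real.exp (1 / 4) := Real.exp_le_exp.mpr hu
    have h3 : Real.exp (1 / 4) < 1.3 := by
      have h4 : Real.exp (1 / 4) ^ 4 < 1.3 ^ 4 := by
        rw [← Real.exp_nat_mul]
        have h5 : ((4 : ℕ) : ℝ) * (1 / 4) = 1 := by norm_num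
        rw [h5]
        have := Real.exp_one_lt_d9
        norm_num
        linarith
      exact lt_of_pow_lt_pow_left₀ 4 (by norm_num) h4
    have h6 : 0 < Real.exp (green n c u) := Real.exp_pos _
    nlinarith
  filter_upwards [motion_pair hn hcM hr hs hz hw,
    (tendsto_bd hn c z r).eventually (gt_mem_nhds (hsix z hz4)),
    (tendsto_bd hn c w r).eventually (gt_mem_nhds (hsix w hw4))] with j hj hjz hjw
  obtain ⟨β, γ, hβ, hγ, hne, hβc, hγc, hdβ, hdγ, hbβ, hbγ⟩ := hj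
  have h2 := two_points hr hβ hγ (hne hzw) (fun t ht => (hbβ t ht).trans_lt hjz)
    (fun t ht => (hbγ t ht).trans_lt hjw) hdβ hdγ
  rw [hβc, hγc] at h2
  exact h2

end Pool.Agent.X151.IR
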