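import Mathlib
import Pool.Agent.X151.IR.Calm
import Pool.Agent.X151.IR.Vel

/-!
# Fast growth of the velocities, or of their logarithmic Lipschitz constants, forces Green's function
of the Multibrot set to be large (helper151)
-/

set_option autoImplicit false

open Filter Topology Set Metric MeasureTheory Complex N62a1eb23

namespace Pool.Agent.X151.IR

open Pool.Agent.H713R2 Pool.Agent.H713R2.AR Pool.Agent.H637R4.PO Pool.Agent.Y736.RN
open Pool.Agent.X151.MU (V)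
open Pool.Agent.TH363.QI (C₁ C₁_nonneg)

variable {n : ℕ} {ψ : ℂ → ℂ}

theorem ball_small (hn : 2 ≤ n) (hψ : IsExteriorMap (multibrotSet n) ψ) {c : ℂ} {κ : ℝ}
    (hκ : 0 < κ) (hB : ¬ Big ψ κ c) :
    ∀ᶠ s : ℝ in 𝓝[>] 0, ∀ t ∈ ball c (s ^ (1 / κ)), green n t t ≤ s := by
  have h1 : ∀ᶠ r : ℝ in 𝓝[>] 0, ¬ ∃ w : ℂ, 1 < ‖w‖ ∧ ‖ψ w - c‖ ≤ r ∧
      1 * r ^ κ ≤ Real.log ‖w‖ := by
    rw [← not_frequently]
    intro hf
    exact hB ⟨1, one_pos, hf⟩
  have hκ1 : 0 < 1 / κ := by positivity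
  have h2 := (tendsto_scale one_pos hκ1).eventually h1
  have h4 : ∀ᶠ s : ℝ in 𝓝[>] 0, 0 < s := self_mem_nhdsWithin
  filter_upwards [h2, h4] with s hs2 hs0
  push Not at hs2
  rw [one_mul] at hs2
  have hrκ : (s ^ (1 / κ)) ^ κ = s := by
    rw [← Real.rpow_mul hs0.le, one_div_mul_cancel hκ.ne', Real.rpow_one]
  exact green_le_of_small hn hψ (c := c) (ρ := s ^ (1 / κ)) hs0.le (fun w hw1 hw2 => by
    have := hs2 w hw1 hw2
    rw [one_mul, hrκ] at this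
    exact this.le)

/-- The bounds at the level `s`. -/
def TameAt (n : ℕ) (c : ℂ) (ε s : ℝ) : Prop :=
  (∀ z : ℂ, s ≤ green n c z → ‖V n c z‖ ≤ s ^ (-ε) * Real.exp (green n c z)) ∧
  ∀ z w : ℂ, s ≤ green n c z → green n c z ≤ 1 / 4 → s ≤ green n c w → green n c w ≤ 1 / 4 →
    ‖V n c z - V n c w‖ ≤ s ^ (-ε) * (‖z - w‖ * (1 + |Real.log ‖z - w‖|))

theorem big_of_not_tame (hn : 2 ≤ n) (hψ : IsExteriorMap (multibrotSet n) ψ) {c : ℂ}
    (hc : c ∈ multibrotSet n) {κ ε : ℝ} (hκ : 0 < κ) (hε : 1 / κ < ε)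
    (h : ∃ᶠ s : ℝ in 𝓝[>] 0, ¬ TameAt n c ε s) : Big ψ κ c := by
  by_contra hB
  have hnR : (2 : ℝ) ≤ n := by exact_mod_cast hn
  have hκ1 : 0 < 1 / κ := by positivity
  have hC₁ := C₁_nonneg
  obtain ⟨C, hC⟩ : ∃ C : ℝ, C = 4 * C₁ + 24 := ⟨_, rfl⟩
  have hC0 : 24 ≤ C := by rw [hC]; linarith
  obtain ⟨δ, hδ⟩ : ∃ δ, δ = ε - 1 / κ := ⟨_, rfl⟩
  have hδ0 : 0 < δ := by rw [hδ]; linarith
  have h3 : ∀ᶠ s : ℝ in 𝓝[>] 0, C * s ^ δ < 1 :=
    ((tendsto_scale (by linarith : 0 < C) hδ0).mono_right nhdsWithin_le_nhds).eventually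
      (gt_mem_nhds one_pos)
  have h4 : ∀ᶠ s : ℝ in 𝓝[>] 0, 0 < s := self_mem_nhdsWithin
  have h5 : ∀ᶠ s : ℝ in 𝓝[>] 0, 1 * s ^ (1 / κ) < 1 / 4 :=
    ((tendsto_scale one_pos hκ1).mono_right nhdsWithin_le_nhds).eventually
      (gt_mem_nhds (by norm_num))
  obtain ⟨s, hs, hball, hs3, hs0, hs1⟩ := (h.and_eventually
    ((ball_small hn hψ hκ hB).and (h3.and (h4.and h5)))).exists
  rw [one_mul] at hs1
  apply hs
  obtain ⟨r, hr⟩ : ∃ r, r = s ^ (1 / κ) := ⟨_, rfl⟩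
  rw [← hr] at hball hs1
  have hr0 : 0 < r := by rw [hr]; exact Real.rpow_pos_of_pos hs0 _
  have hsn : s / n < s := by
    rw [div_lt_iff₀ (by linarith)]
    nlinarith
  have hsε : 0 < s ^ (-ε) := Real.rpow_pos_of_pos hs0 _
  -- the comparison of the constants
  have hcmp : C ≤ r * s ^ (-ε) := by
    have h7 : r * s ^ (-ε) * s ^ δ = 1 := by
      rw [hr, ← Real.rpow_add hs0, ← Real.rpow_add hs0, hδ]
      have : 1 / κ + -ε + (ε - 1 / κ) = 0 := by ring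
      rw [this, Real.rpow_zero]
    have hsδ : 0 < s ^ δ := Real.rpow_pos_of_pos hs0 _
    have h8 : C * s ^ δ ≤ r * s ^ (-ε) * s ^ δ := by rw [h7]; exact hs3.le
    exact le_of_mul_le_mul_right h8 hsδ
  refine ⟨fun z hz => ?_, fun z w hz hz4 hw hw4 => ?_⟩
  · have h6 := vel_bound hn hc hr0 hball (z := z) (by linarith)
    have he : 0 < Real.exp (green n c z) := Real.exp_pos _
    have h7 : r * ‖V n c z‖ ≤ r * (s ^ (-ε) * Real.exp (green n c z)) := by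
      calc r * ‖V n c z‖ ≤ 2 * (2 + r) * Real.exp (green n c z) := h6
        _ ≤ (r * s ^ (-ε)) * Real.exp (green n c z) := by
          apply mul_le_mul_of_nonneg_right _ he.le
          linarith
        _ = _ := by ring
    exact le_of_mul_le_mul_left h7 hr0
  · have h6 := vel_modulus hn hc hr0 hs1.le hball (z := z) (w := w) (by linarith) (by linarith)
      hz4 hw4
    have he : 0 ≤ ‖z - w‖ * (1 + |Real.log ‖z - w‖|) := by positivity
    have h7 : r * ‖V n c z - V n c w‖ ≤ r * (s ^ (-ε) * (‖z - w‖ * (1 + |Real.log ‖z - w‖|))) := by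
      calc r * ‖V n c z - V n c w‖ ≤ (4 * C₁ + 24) * ‖z - w‖ * (1 + |Real.log ‖z - w‖|) := h6
        _ = C * (‖z - w‖ * (1 + |Real.log ‖z - w‖|)) := by rw [hC]; ring
        _ ≤ (r * s ^ (-ε)) * (‖z - w‖ * (1 + |Real.log ‖z - w‖|)) :=
          mul_le_mul_of_nonneg_right hcmp he
        _ = _ := by ring
    exact le_of_mul_le_mul_left h7 hr0

end Pool.Agent.X151.IR
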