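import Mathlib
import Pool.Agent.TH279.DG.AE3
import Pool.Agent.X151.IR.Tame

/-!
# Almost every parameter: growth of the velocities (helper151)
-/

set_option autoImplicit false

open Filter Topology Set Metric MeasureTheory Complex N62a1eb23

namespace Pool.Agent.X151.IR

open Pool.Agent.H713R2 Pool.Agent.H713R2.AR Pool.Agent.H637R4.PO Pool.Agent.Y736.RN
open Pool.Agent.X151.MU (V)
open Pool.Agent.TH363.QI (C₁ C₁_nonneg)

theorem tendsto_L : Tendsto (fun s : ℝ => Real.log (1 / s)) (𝓝[>] 0) atTop := by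
  have h := tendsto_neg_atBot_atTop.comp Real.tendsto_log_nhdsGT_zero
  refine h.congr fun s => ?_
  simp [Function.comp]

theorem asy1 {a b C : ℝ} (hab : a < b) (ha : 0 < a) :
    ∀ᶠ L : ℝ in atTop, C + 2 * L ^ a ≤ L ^ b := by
  have h1 := (tendsto_rpow_atTop (show 0 < b - a by linarith)).eventually
    (eventually_ge_atTop (2 + |C|))
  filter_upwards [h1, eventually_ge_atTop 1] with L hL hL1
  have h2 : 1 ≤ L ^ a := Real.one_le_rpow hL1 ha.le
  have h3 : L ^ b = L ^ a * L ^ (b - a) := by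
    rw [← Real.rpow_add (by linarith)]
    congr 1
    ring
  have h4 : L ^ a * (2 + |C|) ≤ L ^ a * L ^ (b - a) := by gcongr
  have h5 := le_abs_self C
  have h6 := abs_nonneg C
  rw [h3]
  nlinarith

theorem asy2 {a b : ℝ} (hab : a < b) (_ha : 0 < a) :
    ∀ᶠ L : ℝ in atTop, (4 * L) ^ a ≤ L ^ b := by
  have h1 := (tendsto_rpow_atTop (show 0 < b - a by linarith)).eventually
    (eventually_ge_atTop ((4 : ℝ) ^ a))
  filter_upwards [h1, eventually_ge_atTop 1] with L hL hL1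
  have h3 : L ^ b = L ^ (b - a) * L ^ a := by
    rw [← Real.rpow_add (by linarith)]
    congr 1
    ring
  rw [h3, Real.mul_rpow (by norm_num) (by linarith)]
  gcongr

/-- At almost every parameter of a Multibrot set the escape rate of the critical value is at most `s`
on the disc of radius `exp (-(log (1 / s)) ^ β)`. -/
theorem ae_level {d : ℕ} (hd : 2 ≤ d) : ∀ᵐ c ∂(volume.restrict (multibrotSet d)),
    ∀ β : ℝ, 1 / 2 < β → ∀ᶠ s : ℝ in 𝓝[>] 0,
      ∀ t ∈ ball c (Real.exp (-(Real.log (1 / s)) ^ β)), green d t t ≤ s := by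
  have hdR : (2 : ℝ) ≤ d := by exact_mod_cast hd
  filter_upwards [Pool.Agent.TH279.DG.ae_ball hd,
    ae_restrict_mem (t_CLO d hd).measurableSet] with c hc hcM
  intro β hβ
  have hc2 : ‖c‖ ≤ 2 := f_NRM d hd c hcM
  obtain ⟨β', hβ'1, hβ'2⟩ := exists_between hβ
  obtain ⟨N, hN⟩ := eventually_atTop.1 (hc β' hβ'1)
  obtain ⟨C, hC⟩ : ∃ C : ℝ, C = Real.log 6 + Real.log (2 * 3) := ⟨_, rfl⟩
  have hlog6 : 0 < Real.log 6 := Real.log_pos (by norm_num)
  have hC0 : 0 < C := by rw [hC]; norm_num; positivity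
  have h1 := tendsto_L.eventually ((asy2 hβ'2 (by linarith)).and
    ((eventually_ge_atTop (2 : ℝ)).and ((eventually_ge_atTop (N : ℝ)).and
      (eventually_ge_atTop (Real.log C)))))
  have h4 : ∀ᶠ s : ℝ in 𝓝[>] 0, 0 < s := self_mem_nhdsWithin
  filter_upwards [h1, h4] with s hs hs0 t ht
  obtain ⟨hs1, hs2, hs3, hs4⟩ := hs
  obtain ⟨L, hL⟩ : ∃ L, L = Real.log (1 / s) := ⟨_, rfl⟩
  rw [← hL] at hs1 hs2 hs3 hs4 ht
  obtain ⟨m, hm⟩ : ∃ m, m = ⌈3 * L⌉₊ := ⟨_, rfl⟩
  have hm1 : 3 * L ≤ m := by rw [hm]; exact Nat.le_ceil _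
  have hm2 : (m : ℝ) < 3 * L + 1 := by rw [hm]; exact Nat.ceil_lt_add_one (by linarith)
  have hmN : N ≤ m + 1 := by
    have : (N : ℝ) ≤ ((m + 1 : ℕ) : ℝ) := by push_cast; linarith
    exact_mod_cast this
  have hr1 : Real.exp (-L ^ β) ≤ Real.exp (-((m + 1 : ℕ) : ℝ) ^ β') := by
    apply Real.exp_le_exp.mpr
    apply neg_le_neg
    refine le_trans ?_ hs1
    apply Real.rpow_le_rpow (by positivity) _ (by linarith)
    push_cast
    linarith
  have hP := hN (m + 1) hmN t (ball_subset_ball hr1 ht) (m + 1) le_rfl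
  -- the norm of `t`
  have ht3 : ‖t‖ ≤ 3 := by
    rw [mem_ball, dist_eq_norm] at ht
    have h5 : Real.exp (-L ^ β) ≤ 1 := by
      rw [Real.exp_le_one_iff]
      have : 0 ≤ L ^ β := Real.rpow_nonneg (by linarith) _
      linarith
    have := norm_add_le (t - c) c
    rw [sub_add_cancel] at this
    linarith
  have h5 := (abs_le.mp (green_near hd (A := 3) (by norm_num) ht3 t m)).2
  have h6 : gap d t t m ≤ Real.log 6 / (d : ℝ) ^ m := by
    unfold gap
    apply div_le_div_of_nonneg_right _ (by positivity)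
    rw [Pool.Agent.H712R2.iter_c hd]
    refine (Real.posLog_le_posLog (norm_nonneg _) hP).trans ?_
    rw [Real.posLog_eq_log (by norm_num)]
  have h7 : green d t t ≤ C / (d : ℝ) ^ m := by
    rw [hC, add_div]
    linarith
  refine h7.trans ?_
  have hdm : (0 : ℝ) < (d : ℝ) ^ m := by positivity
  rw [div_le_iff₀ hdm]
  have h8 : Real.exp (2 * L) ≤ (d : ℝ) ^ m := by
    have h9 : (2 : ℝ) ^ m ≤ (d : ℝ) ^ m := pow_le_pow_left₀ (by norm_num) hdR m
    refine le_trans ?_ h9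
    rw [← Real.rpow_natCast, Real.rpow_def_of_pos (by norm_num)]
    apply Real.exp_le_exp.mpr
    have h10 := Real.log_two_gt_d9
    nlinarith
  have h9 : C ≤ Real.exp L := by
    rw [← Real.exp_log hC0]
    exact Real.exp_le_exp.mpr hs4
  have h10 : s = Real.exp (-L) := by
    rw [hL, one_div, Real.log_inv, neg_neg, Real.exp_log hs0]
  calc C ≤ Real.exp L := h9
    _ = Real.exp (-L) * Real.exp (2 * L) := by rw [← Real.exp_add]; congr 1; ring
    _ ≤ s * (d : ℝ) ^ m := by rw [h10]; gcongr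

/-- Energy, size and logarithmic Lipschitz constant of the velocity at the level `s` are bounded by
`K`. -/
def GrowAt (n : ℕ) (c : ℂ) (K s : ℝ) : Prop :=
  En n c s ≤ ENNReal.ofReal K ∧
  (∀ z : ℂ, s ≤ green n c z → ‖V n c z‖ ≤ K * Real.exp (green n c z)) ∧
  ∀ z w : ℂ, s ≤ green n c z → green n c z ≤ 1 / 4 → s ≤ green n c w → green n c w ≤ 1 / 4 →
    ‖V n c z - V n c w‖ ≤ K * (‖z - w‖ * (1 + |Real.log ‖z - w‖|))

theorem ae_grow {n : ℕ} (hn : 2 ≤ n) : ∀ᵐ c ∂(volume.restrict (multibrotSet n)),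
    ∀ β : ℝ, 1 / 2 < β → ∀ᶠ s : ℝ in 𝓝[>] 0,
      GrowAt n c (Real.exp ((Real.log (1 / s)) ^ β)) s := by
  have hnR : (2 : ℝ) ≤ n := by exact_mod_cast hn
  filter_upwards [ae_level hn, ae_restrict_mem (t_CLO n hn).measurableSet] with c hc hcM
  intro β hβ
  obtain ⟨β', hβ'1, hβ'2⟩ := exists_between hβ
  have hC₁ := C₁_nonneg
  obtain ⟨Ar, hAr⟩ : ∃ C, C = (volume {z : ℂ | green n c z ≤ 1}).toReal := ⟨_, rfl⟩
  have hfin : volume {z : ℂ | green n c z ≤ 1} ≠ ⊤ := (isCompact_GLev hn c 1).measure_lt_top.ne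
  have hAr0 : 0 ≤ Ar := by rw [hAr]; exact ENNReal.toReal_nonneg
  obtain ⟨D, hD⟩ : ∃ D : ℝ, D = Ar + (4 * C₁ + 24) := ⟨_, rfl⟩
  have hD0 : 24 ≤ D := by rw [hD]; linarith
  have h1 := tendsto_L.eventually ((asy1 (C := Real.log D) hβ'2 (by linarith)).and
    ((eventually_ge_atTop (2 : ℝ)).and
      ((tendsto_rpow_atTop (show 0 < β' by linarith)).eventually (eventually_ge_atTop 2))))
  have h4 : ∀ᶠ s : ℝ in 𝓝[>] 0, 0 < s := self_mem_nhdsWithin
  have h5 : ∀ᶠ s : ℝ in 𝓝[>] 0, s < 1 := nhdsWithin_le_nhds (gt_mem_nhds one_pos)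
  filter_upwards [h1, h4, h5, hc β' hβ'1] with s hs hs0 hs1 hball
  obtain ⟨ha1, ha2, ha3⟩ := hs
  obtain ⟨L, hL⟩ : ∃ L, L = Real.log (1 / s) := ⟨_, rfl⟩
  rw [← hL] at ha1 ha2 ha3 hball ⊢
  obtain ⟨r, hr⟩ : ∃ r, r = Real.exp (-L ^ β') := ⟨_, rfl⟩
  rw [← hr] at hball
  have hr0 : 0 < r := by rw [hr]; exact Real.exp_pos _
  have hr4 : r ≤ 1 / 4 := by
    rw [hr]
    have h6 : Real.exp (-L ^ β') ≤ Real.exp (-2) := Real.exp_le_exp.mpr (by linarith)
    have h7 : Real.exp (-2) ≤ 1 / 4 := by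
      rw [Real.exp_neg, inv_eq_one_div]
      apply one_div_le_one_div_of_le (by norm_num)
      have h8 : Real.exp 2 = Real.exp 1 ^ 2 := by rw [← Real.exp_nat_mul]; norm_num
      have h9 := Real.add_one_le_exp (1 : ℝ)
      rw [h8]
      nlinarith
    linarith
  obtain ⟨K, hK⟩ : ∃ K, K = Real.exp (L ^ β) := ⟨_, rfl⟩
  rw [← hK]
  have hK0 : 0 < K := by rw [hK]; exact Real.exp_pos _
  have hDK : D ≤ r ^ 2 * K := by
    have h6 : D * Real.exp (2 * L ^ β') ≤ K := by
      rw [hK]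
      calc D * Real.exp (2 * L ^ β') = Real.exp (Real.log D + 2 * L ^ β') := by
            rw [Real.exp_add, Real.exp_log (by linarith)]
        _ ≤ _ := Real.exp_le_exp.mpr ha1
    have h7 : r ^ 2 * Real.exp (2 * L ^ β') = 1 := by
      rw [hr, ← Real.exp_nat_mul, ← Real.exp_add]
      have : ((2 : ℕ) : ℝ) * -L ^ β' + 2 * L ^ β' = 0 := by push_cast; ring
      rw [this, Real.exp_zero]
    calc D = r ^ 2 * (D * Real.exp (2 * L ^ β')) := by rw [mul_left_comm, h7, mul_one]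
      _ ≤ r ^ 2 * K := by gcongr
  have hDK' : D ≤ r * K := hDK.trans (by
    have : r ^ 2 ≤ r := by nlinarith
    gcongr)
  have hsn : s / n < s := by
    rw [div_lt_iff₀ (by linarith)]
    nlinarith
  refine ⟨?_, fun z hz => ?_, fun z w hz hz4 hw hw4 => ?_⟩
  · have hdir := dirM hn hcM hr0 hball (s₁ := s) hsn
    have h6 : ENNReal.ofReal (r ^ 2) * En n c s ≤ ENNReal.ofReal Ar := by
      rw [hAr, ENNReal.ofReal_toReal hfin]
      refine hdir.trans (measure_mono ?_)
      intro z hz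
      have hz' : green n c z ≤ s := hz
      show green n c z ≤ 1
      linarith
    have hr2 : ENNReal.ofReal (r ^ 2) ≠ 0 := by
      rw [ne_eq, ENNReal.ofReal_eq_zero, not_le]
      positivity
    have h7 : ENNReal.ofReal (r ^ 2) * En n c s ≤ ENNReal.ofReal (r ^ 2) * ENNReal.ofReal K := by
      refine h6.trans ?_
      rw [← ENNReal.ofReal_mul (by positivity)]
      apply ENNReal.ofReal_le_ofReal
      rw [hD] at hDK
      linarith
    exact (ENNReal.mul_le_mul_iff_right hr2 ENNReal.ofReal_ne_top).mp h7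
  · have h6 := vel_bound hn hcM hr0 hball (z := z) (by linarith)
    have he : 0 < Real.exp (green n c z) := Real.exp_pos _
    have h7 : r * ‖V n c z‖ ≤ r * (K * Real.exp (green n c z)) := by
      calc r * ‖V n c z‖ ≤ 2 * (2 + r) * Real.exp (green n c z) := h6
        _ ≤ (r * K) * Real.exp (green n c z) := by
          apply mul_le_mul_of_nonneg_right _ he.le
          linarith
        _ = _ := by ring
    exact le_of_mul_le_mul_left h7 hr0
  · have h6 := vel_modulus hn hcM hr0 hr4 hball (z := z) (w := w) (by linarith) (by linarith)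
      hz4 hw4
    have he : 0 ≤ ‖z - w‖ * (1 + |Real.log ‖z - w‖|) := by positivity
    have h7 : r * ‖V n c z - V n c w‖ ≤ r * (K * (‖z - w‖ * (1 + |Real.log ‖z - w‖|))) := by
      calc r * ‖V n c z - V n c w‖ ≤ (4 * C₁ + 24) * ‖z - w‖ * (1 + |Real.log ‖z - w‖|) := h6
        _ = (4 * C₁ + 24) * (‖z - w‖ * (1 + |Real.log ‖z - w‖|)) := by ring
        _ ≤ (r * K) * (‖z - w‖ * (1 + |Real.log ‖z - w‖|)) := by
          apply mul_le_mul_of_nonneg_right _ he
          rw [hD] at hDK'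
          linarith
        _ = _ := by ring
    exact le_of_mul_le_mul_left h7 hr0

end Pool.Agent.X151.IR
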